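import Mathlib
import Pool.Agent.Helper47.M.Defs
import Pool.Agent.Helper15.WE22

/-!
# Theorem M+ (all dimensions `N r ≥ l`): definitions

The general complete intersection `X` of `l` ample divisors in a product of projective spaces of
dimensions `N r` with `l < m r ≤ l + 2` and `m r ≤ N r + 1`, where `m r = ∑ i, d i r` (so the
anticanonical divisor is nef).  The proof is by slices: fix `N r - n r` affine coordinates of each
factor, `n r = m r - 1` (or, if all `m r = l + 1`, `n r = l + 1` for one factor).

* `Tz N d`: the numerical conditions for `X`.  `Tc n d`: the numerical conditions for the slices.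
* `Sl n N`: the choice of the kept coordinates (`g r b`), `Q g`: the fixed coordinates.
* `Lg g ξ`: the matrix of the embedding of the slice, `emb g ξ y`: the image of the point `y`,
  `slc g ξ c`: the coefficients of the slice, `rst g x`: the kept coordinates of the point `x`.
* `FullX K c x`: the generic point of `X`.
-/

set_option autoImplicit false

namespace Pool.Agent.Helper47.P

open MvPolynomial AlgebraicGeometry CategoryTheory Pool.Agent.Helper15 Pool.Agent.Helper15.Curve
open Pool.Agent.Helper47.M

variable {k l : ℕ}

/-- The numerical conditions. -/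
structure Tz (N : Fin k → ℕ) (d : Fin l → Fin k → ℕ) : Prop where
  pos : ∀ i r, 0 < d i r
  one : ∀ r, l + 1 ≤ ∑ i, d i r
  two : ∀ r, ∑ i, d i r ≤ l + 2
  le : ∀ r, ∑ i, d i r ≤ N r + 1

/-- The numerical conditions for the slices: factors of dimension `l` with fibres of length two, and
factors of dimension `l + 1` whose fibres are curves of genus zero or one. -/
structure Tc (N : Fin k → ℕ) (d : Fin l → Fin k → ℕ) : Prop where
  pos : ∀ i r, 0 < d i r
  dim : ∀ r, N r = l ∨ N r = l + 1
  dbl : ∀ r, N r = l → ∑ i, d i r = l + 1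
  cur : ∀ r, N r = l + 1 → ∑ i, d i r = l + 1 ∨ ∑ i, d i r = l + 2

theorem _root_.Pool.Agent.Helper47.M.Ty.tc {N : Fin k → ℕ} {d : Fin l → Fin k → ℕ} (h : Ty N d) :
    Tc N d where
  pos := h.pos
  dim := h.dim
  dbl r hr := by rw [h.sum r, hr]
  cur r hr := Or.inr (by rw [h.sum r, hr])

/-- The choice of the kept affine coordinates of a slice. -/
abbrev Sl (n N : Fin k → ℕ) := ∀ r, Fin (n r) ↪ Fin (N r)

section slices

variable {n N : Fin k → ℕ} {d : Fin l → Fin k → ℕ}

/-- The fixed coordinates. -/
abbrev Q (g : Sl n N) := {q : Vr N // q.2 ∉ Set.range (g q.1)}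

variable {S : Type*} [CommRing S]

open Classical in
/-- The matrix of the embedding of the slice. -/
noncomputable def Lg (g : Sl n N) (ξ : Q g → S) (r : Fin k) :
    Fin (n r + 1) → Fin (N r + 1) → S :=
  Fin.cons (Fin.cons 1 fun a => if h : a ∉ Set.range (g r) then ξ ⟨⟨r, a⟩, h⟩ else 0)
    fun b => Pi.single (g r b).succ 1

/-- The image of a point of the slice. -/
noncomputable def emb (g : Sl n N) (ξ : Q g → S) (y : Pt n S) : Pt N S := fun r i =>
  ∑ j, y r j * Lg g ξ r j i

/-- The coefficients of the slice. -/
noncomputable def slc (g : Sl n N) (ξ : Q g → S) (c : Tx N d → S) : Tx n d → S := fun e =>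
  tv (fun m => c ⟨e.1, m⟩) fun r t => Lg g ξ r (e.2 r t)

/-- The kept coordinates. -/
def rst (g : Sl n N) (x : Pt N S) : Pt n S := fun r =>
  Fin.cons (x r 0) fun b => x r (g r b).succ

end slices

section fields

variable {n N : Fin k → ℕ} {d : Fin l → Fin k → ℕ}

/-- The generic point: for each factor `r` and each set `A` of `N r - l` affine coordinates of it,
these and the coordinates of all other factors are independent. -/
structure FullX (K : Type) {E : Type} [Field K] [Field E] [Algebra K E] (c : Tx N d → K)
    (x : Pt N E) : Prop where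
  eq : ∀ i, Fm (fun e => algebraMap K E (c e)) x i = 0
  one : ∀ j, x j 0 = 1
  ind : ∀ (r : Fin k) (A : Finset (Vr N)), (∀ q ∈ A, q.1 = r) → A.card + l = N r →
    AlgebraicIndependent K (fun q : {q : Vr N // q.1 ≠ r ∨ q ∈ A} => x q.1.1 q.1.2.succ)
  top : Bf K x ∅ = ⊤

variable {K E : Type} [Field K] [Field E] [Algebra K E]

/-- The field of the fixed coordinates. -/
def Kx (K : Type) {E : Type} [Field K] [Field E] [Algebra K E] (g : Sl n N) (x : Pt N E) :
    IntermediateField K E :=
  IntermediateField.adjoin K (Set.range fun q : Q g => x q.1.1 q.1.2.succ)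

/-- The fixed coordinates as elements of `Kx K g x`. -/
def xi (K : Type) {E : Type} [Field K] [Field E] [Algebra K E] (g : Sl n N) (x : Pt N E) :
    Q g → Kx K g x := fun q =>
  ⟨x q.1.1 q.1.2.succ, IntermediateField.subset_adjoin K _ ⟨q, rfl⟩⟩

/-- The coefficients of the slice through the generic point. -/
noncomputable def cx (K : Type) {E : Type} [Field K] [Field E] [Algebra K E] (g : Sl n N)
    (x : Pt N E) (c : Tx N d → K) : Tx n d → Kx K g x :=
  slc g (xi K g x) fun e => algebraMap K (Kx K g x) (c e)

/-- The Jacobian determinant of the forms with respect to the coordinates `u j` of the factor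
`r`. -/
noncomputable def Jd {K : Type*} [Field K] (c : Tx N d → K) (r : Fin k) (u : Fin l ↪ Fin (N r)) :
    MvPolynomial (Vr N) K :=
  (Matrix.of fun i j : Fin l => pderiv ⟨r, u j⟩ (Fm (fun e => C (c e)) (ch K N) i)).det

/-- The generic point of a prime ideal. -/
noncomputable def gpt {K : Type} [Field K] {N : Fin k → ℕ} (P : Ideal (MvPolynomial (Vr N) K)) :
    Pt N (FractionRing (MvPolynomial (Vr N) K ⧸ P)) := fun r i =>
  algebraMap (MvPolynomial (Vr N) K ⧸ P) (FractionRing (MvPolynomial (Vr N) K ⧸ P))
    (Ideal.Quotient.mk P (ch K N r i))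

/-- A field of the family: the curve over `B` has genus zero (double line) or one. -/
def Gd {K E : Type} [Field K] [Field E] [Algebra K E] (B : IntermediateField K E) : Prop :=
  (∃ (x y : E) (q : Polynomial B), IsQuartic B x y q) ∨ IsGenusOne B

/-- A family of fields with the intersection `K`. -/
def Fam (K E : Type) [Field K] [Field E] [Algebra K E] : Prop :=
  ∃ (ι : Type) (B : ι → IntermediateField K E), (∀ i, Gd (B i)) ∧
    ∀ e, (∀ i, e ∈ B i) → e ∈ (⊥ : IntermediateField K E)

end fields

end Pool.Agent.Helper47.P
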