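import Mathlib
import Pool.Agent.Helper47.P.Defs
import Pool.Agent.Helper47.M.Pd

/-!
# Theorem M+: the family of fields
-/

set_option autoImplicit false

namespace Pool.Agent.Helper47.P

open MvPolynomial AlgebraicGeometry CategoryTheory Pool.Agent Pool.Agent.Helper15
open Pool.Agent.Helper15.Curve Pool.Agent.Helper47.M

variable {k l : ℕ} {n N : Fin k → ℕ} {d : Fin l → Fin k → ℕ}

/-- A purely transcendental field. -/
theorem fam_rational {K E : Type} [Field K] [Field E] [Algebra K E] {ι : Type}
    [Finite ι] (v : ι → E) (hv : AlgebraicIndependent K v)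
    (htop : IntermediateField.adjoin K (Set.range v) = ⊤) : Fam K E := by
  classical
  refine ⟨ι, fun i => IntermediateField.adjoin K (v '' {i}ᶜ), fun i => Or.inl ?_,
    fun e he => mem_bot_of_all v hv htop e he⟩
  have htr : Transcendental (IntermediateField.adjoin K (v '' {i}ᶜ)) (v i) := by
    rw [IntermediateField.transcendental_adjoin_iff]
    exact hv.transcendental_adjoin (by simp)
  refine ⟨v i ^ 2, v i, Polynomial.X, ?_, Polynomial.separable_X, ?_, ?_, ?_, ?_⟩
  · exact htr.pow (by norm_num)
  · rw [Polynomial.natDegree_X]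
  · rw [Polynomial.natDegree_X]
    norm_num
  · rw [Polynomial.aeval_X]
  · rw [eq_top_iff]
    intro y _
    have hy : y ∈ IntermediateField.adjoin K (Set.range v) := by
      rw [htop]
      exact IntermediateField.mem_top
    have hle : IntermediateField.adjoin K (Set.range v) ≤
        (IntermediateField.adjoin (IntermediateField.adjoin K (v '' {i}ᶜ))
          {v i ^ 2, v i}).restrictScalars K := by
      rw [IntermediateField.adjoin_le_iff]
      rintro _ ⟨j, rfl⟩
      by_cases hj : j = i
      · subst hj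
        exact IntermediateField.subset_adjoin _ _ (by simp)
      · have h1 : v j ∈ IntermediateField.adjoin K (v '' {i}ᶜ) :=
          IntermediateField.subset_adjoin _ _ ⟨j, hj, rfl⟩
        exact (IntermediateField.adjoin (IntermediateField.adjoin K (v '' {i}ᶜ))
          {v i ^ 2, v i}).algebraMap_mem ⟨v j, h1⟩
    exact hle hy

/-- Transport of a double line by an automorphism. -/
theorem isQuartic_map {K E : Type} [Field K] [Field E] [Algebra K E]
    {B : IntermediateField K E} {x y : E} {q : Polynomial B} (h : IsQuartic B x y q)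
    (σ : E ≃ₐ[K] E) : ∃ (x' y' : E) (q' : Polynomial (B.map (σ : E →ₐ[K] E))),
      IsQuartic (B.map (σ : E →ₐ[K] E)) x' y' q' := by
  let B' : IntermediateField K E := B.map (σ : E →ₐ[K] E)
  let f : B →+* B' := ((σ : E →+* E).comp (algebraMap B E)).codRestrict B' fun b =>
    ⟨b.1, b.2, rfl⟩
  have hfs : Function.Surjective f := by
    rintro ⟨e, b, hb, rfl⟩
    exact ⟨⟨b, hb⟩, rfl⟩
  have hcE : RingHom.comp (algebraMap B' E) f = RingHom.comp (σ : E →+* E) (algebraMap B E) := rfl
  have hev : ∀ (p : Polynomial B) (z : E), Polynomial.aeval (σ z) (p.map f) =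
      σ (Polynomial.aeval z p) := by
    intro p z
    rw [Polynomial.aeval_def, Polynomial.eval₂_map, hcE, Polynomial.aeval_def]
    exact (Polynomial.hom_eval₂ p (algebraMap B E) (σ : E →+* E) z).symm
  refine ⟨σ x, σ y, q.map f, ?_, h.sep.map, ?_, ?_, ?_, ?_⟩
  · intro h1
    exact h.transc (IsAlgebraic.of_ringHom_of_comp_eq f (σ : E →+* E) h1 hfs σ.injective hcE)
  · rw [Polynomial.natDegree_map_eq_of_injective f.injective]
    exact h.one_le
  · rw [Polynomial.natDegree_map_eq_of_injective f.injective]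
    exact h.le_four
  · rw [hev, ← h.eqn, map_pow]
  · rw [eq_top_iff]
    intro e _
    obtain ⟨e0, rfl⟩ := σ.surjective e
    have h0 : e0 ∈ IntermediateField.adjoin B {x, y} := by
      rw [h.top]
      exact IntermediateField.mem_top
    have hle : (IntermediateField.adjoin B {x, y}).toSubfield ≤
        (IntermediateField.adjoin B' {σ x, σ y}).toSubfield.comap (σ : E →+* E) := by
      rw [IntermediateField.adjoin_toSubfield, Subfield.closure_le]
      rintro z (⟨b, rfl⟩ | hz)
      · change σ (b : E) ∈ IntermediateField.adjoin B' {σ x, σ y}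
        exact (IntermediateField.adjoin B' {σ x, σ y}).algebraMap_mem (f b)
      · change σ z ∈ IntermediateField.adjoin B' {σ x, σ y}
        apply IntermediateField.subset_adjoin
        rcases hz with rfl | rfl
        · exact Or.inl rfl
        · exact Or.inr rfl
    exact hle h0

theorem gd_map {K E : Type} [Field K] [Field E] [Algebra K E] {B : IntermediateField K E}
    (h : Gd B) (σ : E ≃ₐ[K] E) : Gd (B.map (σ : E →ₐ[K] E)) := by
  rcases h with ⟨x, y, q, h⟩ | h
  · exact Or.inl (isQuartic_map h σ)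
  · exact Or.inr (Helper24.MP.isGenusOne_map h σ)

/-- The family of the generic point of the type `Tc`, from the field theoretic facts. -/
theorem fam_of_facts {K E : Type} [Field K] [Field E] [Algebra K E] (h : Tc N d)
    (hR : ∃ r, N r = l + 1) (c : Tx N d → K) (x : Pt N E) (hx : FullPt K c x)
    (hg : ∀ r, N r = l + 1 → Gd (Bf K x {r}))
    (hinv : ∀ s, N s = l → Bf K x {s} = ⊤ ∨ ∃ σ : E ≃ₐ[K] E,
      (∀ j, j ≠ s → ∀ i, σ (x j i) = x j i) ∧
      ∀ r, N r = l + 1 → ∀ φ ∈ Bf K x {r}, σ φ ∈ Bf K x {r} → φ ∈ Bf K x {r, s})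
    (hint : ∀ r j, N r = l + 1 → N j = l + 1 → j ≠ r → ∀ φ ∈ Bf K x {r}, φ ∈ Bf K x {j} →
      φ ∈ Bf K x {r, j}) : Fam K E := by
  classical
  by_cases hT : ∃ s, N s = l ∧ Bf K x {s} = ⊤
  · obtain ⟨s, _, hs⟩ := hT
    refine fam_rational _ (hx.ind s) ?_
    rw [← hs, Helper97.M.bf_eq x hx.one s {s} rfl]
    congr 1
    ext y
    simp only [Set.mem_range, Set.mem_image, Set.mem_ofPred_eq, Set.mem_singleton_iff]
    constructor
    · rintro ⟨q, rfl⟩
      exact ⟨q, q.2, rfl⟩
    · rintro ⟨q, _, rfl⟩
      exact ⟨q, rfl⟩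
  · push Not at hT
    obtain ⟨r, hr⟩ := hR
    have hinv' : ∀ s, ∃ σ : E ≃ₐ[K] E, N s = l → (∀ j, j ≠ s → ∀ i, σ (x j i) = x j i) ∧
        ∀ r, N r = l + 1 → ∀ φ ∈ Bf K x {r}, σ φ ∈ Bf K x {r} → φ ∈ Bf K x {r, s} := by
      intro s
      by_cases hs : N s = l
      · rcases hinv s hs with h1 | ⟨σ, h1⟩
        · exact absurd h1 (hT s hs)
        · exact ⟨σ, fun _ => h1⟩
      · exact ⟨AlgEquiv.refl, fun h1 => absurd h1 hs⟩
    choose σ hσ using hinv'
    refine ⟨Fin k, fun j : Fin k => if N j = l then
      (Bf K x {r}).map ((σ j : E ≃ₐ[K] E) : E →ₐ[K] E) else Bf K x {j}, fun j => ?_,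
      fun e he => ?_⟩
    · beta_reduce
      by_cases hj : N j = l
      · rw [if_pos hj]
        exact gd_map (hg r hr) (σ j)
      · rw [if_neg hj]
        exact hg j ((h.dim j).resolve_left hj)
    · have h0 : e ∈ Bf K x {r} := by
        have h1 := he r
        beta_reduce at h1
        rwa [if_neg (by omega)] at h1
      refine mem_bot_of_pairs c x hx r e h0 ?_
      intro j hjr
      have h2 := he j
      beta_reduce at h2
      by_cases hj : N j = l
      · rw [if_pos hj] at h2
        obtain ⟨φ, hφ, rfl⟩ := h2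
        obtain ⟨h3, h4⟩ := hσ j hj
        have h5 : φ ∈ Bf K x {r, j} := h4 r hr φ hφ h0
        have h6 : (σ j) φ = φ := bf_fix x {r, j} (σ j)
          (fun q hq i => h3 q (fun hc => hq (Or.inr hc)) i) φ h5
        change (σ j) φ ∈ _
        rw [h6]
        exact h5
      · rw [if_neg hj] at h2
        exact hint r j hr ((h.dim j).resolve_left hj) hjr e h0 h2

end Pool.Agent.Helper47.P
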