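import Mathlib
import Pool.Agent.Helper47.P.Fam

/-!
# Theorem M+: restriction of the ground field
-/

set_option autoImplicit false

namespace Pool.Agent.Helper47.P

open MvPolynomial AlgebraicGeometry CategoryTheory Pool.Agent Pool.Agent.Helper15
open Pool.Agent.Helper15.Curve Pool.Agent.Helper47.M

variable {K E : Type} [Field K] [Field E] [Algebra K E]

theorem gd_up (K' : IntermediateField K E) (B : IntermediateField K' E) (h : Gd B) :
    Gd (B.restrictScalars K) := by
  rcases h with ⟨x, y, q, h⟩ | h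
  · exact Or.inl ⟨x, y, q, h.transc, h.sep, h.one_le, h.le_four, h.eqn, h.top⟩
  · exact Or.inr ⟨h.closed, h.ell⟩

theorem fam_up (K' : IntermediateField K E)
    (h : Fam K' E) : ∃ (ι : Type) (B : ι → IntermediateField K E), (∀ i, Gd (B i)) ∧
      ∀ e, (∀ i, e ∈ B i) → e ∈ K' := by
  obtain ⟨ι, B, h1, h2⟩ := h
  refine ⟨ι, fun i => (B i).restrictScalars K, fun i => gd_up K' (B i) (h1 i), fun e he => ?_⟩
  have h3 := h2 e he
  rw [IntermediateField.mem_bot] at h3
  obtain ⟨a, rfl⟩ := h3
  exact a.2

end Pool.Agent.Helper47.P
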