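import Mathlib
import Pool.Agent.Helper47.P.Defs
import Pool.Agent.Helper77.M.Inv
import Pool.Agent.Helper28.P.Inv

/-!
# Theorem M+: the covering involution of a factor with `N s = l` (helper77's proof, types `Tc`)
-/

set_option autoImplicit false

namespace Pool.Agent.Helper47.P

open Pool.Agent.Helper47.M Pool.Agent.Helper77.M
open Pool.Agent.Helper28.M.A (fv_map dv_map dv_add dv_smul dv_eq_sum euler fv_one fv_two)
open Pool.Agent.Helper28.P (exists_two)

variable {k l : ℕ} {N : Fin k → ℕ} {d : Fin l → Fin k → ℕ}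
variable {K E : Type} [Field K] [Field E] [Algebra K E]

theorem exists_inv [CharZero K] (h : Tc N d) (c : Tx N d → K) (hc : AllNice K c) (x : Pt N E)
    (hx : FullPt K c x) (r : Fin k) (hr : N r = l + 1) (s : Fin k) (hs : N s = l) :
    Bf K x {s} = ⊤ ∨ ∃ σ : E ≃ₐ[K] E, (∀ j, j ≠ s → ∀ i, σ (x j i) = x j i) ∧
      (∀ φ, σ (σ φ) = φ) ∧ ∀ φ, σ φ = φ → φ ∈ Bf K x {s} := by
  classical
  obtain ⟨i0, hi0, hi⟩ := exists_two h s hs
  obtain ⟨hn, -⟩ := hc r hr E x (hx.gen r)
  have hall : ∀ B' : IntermediateField (Bf K x {s}) E,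
      (∀ e, x s e ∈ B') → B' = ⊤ := by
    intro B' hB'
    rw [eq_top_iff]
    intro y _
    have h1 : y ∈ Bf K x ∅ := by
      rw [hx.top]
      exact IntermediateField.mem_top
    have h2 : Bf K x ∅ ≤ B'.restrictScalars K := by
      refine Bf_le x ∅ _ fun j _ e => ?_
      rw [IntermediateField.mem_restrictScalars]
      by_cases hj : j = s
      · subst hj
        exact hB' e
      · exact B'.algebraMap_mem ⟨x j e, mem_Bf x s j hj e⟩
    exact h2 h1
  by_cases hB : ∀ e, x s e ∈ Bf K x {s}
  · left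
    have h3 := hall ⊥ fun e => by
      rw [IntermediateField.mem_bot]
      exact ⟨⟨x s e, hB e⟩, rfl⟩
    rw [eq_top_iff]
    intro y _
    have h4 : y ∈ (⊥ : IntermediateField (Bf K x {s}) E) := by
      rw [h3]
      exact IntermediateField.mem_top
    rw [IntermediateField.mem_bot] at h4
    obtain ⟨b, rfl⟩ := h4
    exact b.2
  push Not at hB
  obtain ⟨e1, he1⟩ := hB
  -- the rows
  obtain ⟨L, hL⟩ : ∃ L : {i // i ≠ i0} → Fin (N s + 1) → Bf K x {s},
      L = fun i e => dv (fun m => algebraMap K (Bf K x {s}) (c ⟨i.1, m⟩))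
        (Function.update (xb K x s) s 0) s (Pi.single e 1) := ⟨_, rfl⟩
  have hLE : ∀ (i : {i // i ≠ i0}) e, algebraMap (Bf K x {s}) E (L i e) =
      dF (fun e => algebraMap K E (c e)) x s (Pi.single e 1) i.1 := by
    intro i e
    have h5 := dv_map (algebraMap (Bf K x {s}) E)
      (fun m => algebraMap K (Bf K x {s}) (c ⟨i.1, m⟩)) (Function.update (xb K x s) s 0) s
      (Pi.single e 1)
    rw [hL]
    rw [h5, alg_c, xb_upd]
    have h6 : (fun i => algebraMap (Bf K x {s}) E ((Pi.single e 1 :
        Fin (N s + 1) → Bf K x {s}) i)) = Pi.single e 1 := by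
      funext j
      by_cases hj : j = e
      · subst hj
        simp
      · simp [Pi.single_eq_of_ne hj]
    rw [h6, dv_one _ _ _ (hi i.1 i.2)]
    rfl
  have hsum : ∀ (i : {i // i ≠ i0}) (y : Fin (N s + 1) → E),
      ∑ e, algebraMap (Bf K x {s}) E (L i e) * y e =
        dF (fun e => algebraMap K E (c e)) x s y i.1 := by
    intro i y
    have h7 := dv_eq_sum (fun m => algebraMap K E (c ⟨i.1, m⟩)) x s y
    change _ = dv (fun m => algebraMap K E (c ⟨i.1, m⟩)) x s y
    rw [h7]
    refine Finset.sum_congr rfl fun e _ => ?_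
    rw [hLE, mul_comm]
    rfl
  have hind : LinearIndependent (Bf K x {s}) L := by
    rw [Fintype.linearIndependent_iff]
    intro g hg i
    have h8 := hn.j2 s hs i0 hi0 (fun i => if hi : i ≠ i0 then
      algebraMap (Bf K x {s}) E (g ⟨i, hi⟩) else 0) (by simp) fun b => by
      have h9 : ∑ i, (if hi : i ≠ i0 then algebraMap (Bf K x {s}) E (g ⟨i, hi⟩) else 0) *
          dF (fun e => algebraMap K E (c e)) x s b i =
          ∑ i : {i // i ≠ i0}, algebraMap (Bf K x {s}) E (g i) *
            dF (fun e => algebraMap K E (c e)) x s b i.1 := by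
        have q1 := Finset.sum_subtype (Finset.univ.filter fun i => i ≠ i0)
          (p := fun i => i ≠ i0) (F := inferInstance) (by simp)
          (fun i => (if hi : i ≠ i0 then algebraMap (Bf K x {s}) E (g ⟨i, hi⟩) else 0) *
            dF (fun e => algebraMap K E (c e)) x s b i)
        rw [Finset.sum_filter_of_ne] at q1
        · rw [q1]
          refine Finset.sum_congr rfl fun i _ => ?_
          rw [dif_pos i.2]
        · intro i _ hne hi1
          apply hne
          rw [dif_neg (by rw [hi1]; simp), zero_mul]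
      rw [h9]
      have h10 : ∀ i : {i // i ≠ i0}, algebraMap (Bf K x {s}) E (g i) *
            dF (fun e => algebraMap K E (c e)) x s b i.1 =
          ∑ e, algebraMap (Bf K x {s}) E (g i * L i e) * b e := by
        intro i
        rw [← hsum, Finset.mul_sum]
        refine Finset.sum_congr rfl fun e _ => ?_
        rw [map_mul]
        ring
      rw [Finset.sum_congr rfl fun i _ => h10 i, Finset.sum_comm]
      refine Finset.sum_eq_zero fun e _ => ?_
      rw [← Finset.sum_mul, ← map_sum]
      have h11 := congrFun hg e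
      simp only [Finset.sum_apply, Pi.smul_apply, smul_eq_mul, Pi.zero_apply] at h11
      rw [h11, map_zero, zero_mul]
    have h12 := congrFun h8 i.1
    simp only [dif_pos i.2, Pi.zero_apply] at h12
    exact (algebraMap (Bf K x {s}) E).injective (by rw [h12, map_zero])
  have hzero : ∀ i : {i // i ≠ i0}, ∑ e, algebraMap (Bf K x {s}) E (L i e) * x s e = 0 := by
    intro i
    rw [hsum]
    have h13 := euler (fun m => algebraMap K E (c ⟨i.1, m⟩)) x s
    have h14 : fv (fun m => algebraMap K E (c ⟨i.1, m⟩)) x = 0 := hx.eq i.1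
    rw [h14, mul_zero] at h13
    exact h13
  obtain ⟨Y0, Y1, hY0, hY1, hY1n, hLY, hxY⟩ := exists_param (x s) (hx.one s) L hind (by
    rw [Fintype.card_subtype_compl, Fintype.card_fin, Fintype.card_subtype_eq]
    omega) hzero e1 (by
    rintro ⟨b, hb⟩
    exact he1 (hb ▸ b.2))
  -- the quadratic equation
  obtain ⟨y0, hy0⟩ : ∃ y : Fin (N s + 1) → E, y = fun e => algebraMap (Bf K x {s}) E (Y0 e) :=
    ⟨_, rfl⟩
  obtain ⟨y1, hy1⟩ : ∃ y : Fin (N s + 1) → E, y = fun e => algebraMap (Bf K x {s}) E (Y1 e) :=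
    ⟨_, rfl⟩
  obtain ⟨t, ht⟩ : ∃ t, t = x s e1 := ⟨_, rfl⟩
  have hxy : x s = fun e => y0 e + t * y1 e := by
    rw [hy0, hy1, ht]
    funext e
    exact hxY e
  obtain ⟨a', ha'⟩ : ∃ a' : Tn N (d i0) → E, a' = fun m => algebraMap K E (c ⟨i0, m⟩) := ⟨_, rfl⟩
  obtain ⟨aB, haB⟩ : ∃ aB : Tn N (d i0) → Bf K x {s},
    aB = fun m => algebraMap K (Bf K x {s}) (c ⟨i0, m⟩) := ⟨_, rfl⟩
  have hab : (fun m => algebraMap (Bf K x {s}) E (aB m)) = a' := by
    rw [haB, ha', alg_c]
  obtain ⟨q0, hq0⟩ : ∃ q, q = fv aB (Function.update (xb K x s) s Y0) := ⟨_, rfl⟩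
  obtain ⟨q1, hq1⟩ : ∃ q, q = dv aB (Function.update (xb K x s) s Y0) s Y1 := ⟨_, rfl⟩
  obtain ⟨q2, hq2⟩ : ∃ q, q = fv aB (Function.update (xb K x s) s Y1) := ⟨_, rfl⟩
  have hq0E : algebraMap (Bf K x {s}) E q0 = fv a' (Function.update x s y0) := by
    rw [hq0, fv_map, hab, xb_upd, hy0]
  have hq1E : algebraMap (Bf K x {s}) E q1 = dv a' (Function.update x s y0) s y1 := by
    rw [hq1, dv_map, hab, xb_upd, hy0, hy1]
  have hq2E : algebraMap (Bf K x {s}) E q2 = fv a' (Function.update x s y1) := by
    rw [hq2, fv_map, hab, xb_upd, hy1]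
  have hroot : fv a' (Function.update x s y0) + t * dv a' (Function.update x s y0) s y1 +
      t ^ 2 * fv a' (Function.update x s y1) = 0 := by
    have h15 := fv_two a' (Function.update x s y0) s hi0 1 t y1
    rw [Function.update_idem, Function.update_idem, Function.update_self] at h15
    have h16 : Function.update x s (fun i => 1 * y0 i + t * y1 i) = x := by
      rw [Function.update_eq_self_iff, hxy]
      funext e
      ring
    rw [h16] at h15
    have h17 : fv a' x = 0 := by
      rw [ha']
      exact hx.eq i0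
    rw [h17] at h15
    linear_combination -h15
  have hne : ¬ (q1 = 0 ∧ q2 = 0) := by
    rintro ⟨h1, h2⟩
    rw [h1, map_zero] at hq1E
    rw [h2, map_zero] at hq2E
    have h18 : dv a' x s y1 = 0 := by
      have h19 := dv_two a' x s hi0 (x s) y1
      rw [Function.update_eq_self] at h19
      have h26 := dv_add a' (Function.update x s y1) s y0 fun e => t * y1 e
      rw [← hxy, dv_smul, dv_two a' x s hi0 y1 y0, ← hq1E] at h26
      have h27 := euler a' (Function.update x s y1) s
      rw [Function.update_self, ← hq2E, mul_zero] at h27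
      rw [h19, h26, h27]
      ring
    refine hY1n ?_
    have h20 := hn.j3 s hs i0 hi0 y1 (by rw [hy1]; simp [hY1]) (fun i => ?_) ?_
    · funext e
      have h21 := congrFun h20 e
      rw [hy1] at h21
      exact (algebraMap (Bf K x {s}) E).injective (h21.trans (map_zero _).symm)
    · by_cases hii : i = i0
      · subst hii
        rw [ha'] at h18
        exact h18
      · have h22 := hsum ⟨i, hii⟩ y1
        rw [← h22, hy1]
        have h23 := congrArg (algebraMap (Bf K x {s}) E) (hLY ⟨i, hii⟩)
        rw [map_sum, map_zero] at h23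
        rw [← h23]
        refine Finset.sum_congr rfl fun e _ => ?_
        rw [map_mul]
    · rw [ha'] at hq2E
      exact hq2E.symm
  obtain ⟨p, hp⟩ : ∃ p : Polynomial (Bf K x {s}), p = Polynomial.C q0 + Polynomial.C q1 *
    Polynomial.X + Polynomial.C q2 * Polynomial.X ^ 2 := ⟨_, rfl⟩
  have hfin := inv_of_quad (Bf K x {s}) t (hall _ fun e => ?_) p ?_ ?_ ?_
  · rcases hfin with h24 | ⟨σ, hσ, hσσ, hσf⟩
    · exact Or.inl h24
    · exact Or.inr ⟨σ, fun j hj i => hσ _ (mem_Bf x s j hj i), hσσ, hσf⟩
  · have htm : t ∈ IntermediateField.adjoin (Bf K x {s}) {t} :=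
      IntermediateField.mem_adjoin_simple_self _ t
    rw [hxY e]
    exact add_mem (IntermediateField.algebraMap_mem _ _)
      (mul_mem (ht ▸ htm) (IntermediateField.algebraMap_mem _ _))
  · intro h0
    refine hne ⟨?_, ?_⟩
    · have h25 := congrArg (fun p => Polynomial.coeff p 1) h0
      rw [hp] at h25
      simpa [Polynomial.coeff_X, Polynomial.coeff_C, Polynomial.coeff_X_pow] using h25
    · have h25 := congrArg (fun p => Polynomial.coeff p 2) h0
      rw [hp] at h25
      simpa [Polynomial.coeff_X, Polynomial.coeff_C, Polynomial.coeff_X_pow] using h25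
  · rw [hp]
    compute_degree
  · rw [hp]
    simp only [map_add, map_mul, map_pow, Polynomial.aeval_C, Polynomial.aeval_X]
    rw [hq0E, hq1E, hq2E]
    linear_combination hroot

end Pool.Agent.Helper47.P
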