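import Mathlib
import Pool.Agent.Helper47.P.Fam2
import Pool.Agent.Helper47.M.Nat2
import Pool.Agent.Helper88.P.Nice
import Pool.Agent.Helper15.P.Genus
import Pool.Agent.Helper15.P.Conics
import Pool.Agent.Helper28.P.Slc
import Pool.Agent.Helper28.P.Full
import Pool.Agent.Helper28.P.Inter
import Pool.Agent.Helper28.P.Inv
import Pool.Agent.Helper69.P.InterLe
import Pool.Agent.Helper64.P.Final
import Pool.Agent.Helper24.P.Prime
import Pool.Agent.Helper47.P.Inv

/-!
# Theorem M+: the main theorem in tensor coordinates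
-/

set_option autoImplicit false

namespace Pool.Agent.Helper47.P

open MvPolynomial AlgebraicGeometry CategoryTheory Pool.Agent Pool.Agent.Helper15
open Pool.Agent.Helper15.Curve Pool.Agent.Helper47.M
open Pool.Agent.Helper88.P (exists_nice)
open Pool.Agent.Helper15.P (exists_genus exists_conic unique)
open Pool.Agent.Helper28.P (exists_slc ind_slice full_slice inter_slices inv_fixed)
open Pool.Agent.Helper69.P (inter_le)
open Pool.Agent.Helper64.P (exists_dom)
open Pool.Agent.Helper24.P (exists_full exists_prime_of)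

variable {k l : ℕ} {n N : Fin k → ℕ} {d : Fin l → Fin k → ℕ}

theorem exists_gd (h : Tc n d) (r : Fin k) :
    ∃ Δ : MvPolynomial (Tx n d) ℚ, Δ ≠ 0 ∧ ∀ (K : Type) [Field K] [CharZero K] (c : Tx n d → K),
      aeval c Δ ≠ 0 → ∀ (E : Type) [Field E] [Algebra K E] (x : Pt n E), FullPt K c x →
        n r = l + 1 → Gd (Bf K x {r}) := by
  by_cases hr : n r = l + 1
  · rcases h.cur r hr with hs | hs
    · obtain ⟨Δ, hΔ, H⟩ := exists_conic h r hr hs
      exact ⟨Δ, hΔ, fun K _ _ c hc E _ _ x hx _ => Or.inl (H K c hc E x hx)⟩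
    · obtain ⟨Δ, hΔ, H⟩ := exists_genus h r hr hs
      exact ⟨Δ, hΔ, fun K _ _ c hc E _ _ x hx _ => Or.inr (H K c hc E x hx)⟩
  · exact ⟨1, one_ne_zero, fun K _ _ c _ E _ _ x _ h1 => absurd h1 hr⟩

/-- The family of fields for general coefficients of the type `Tc`. -/
theorem exists_fam (h : Tc n d) (hR : ∃ r, n r = l + 1) :
    ∃ Δ : MvPolynomial (Tx n d) ℚ, Δ ≠ 0 ∧ ∀ (K : Type) [Field K] [CharZero K] (c : Tx n d → K),
      aeval c Δ ≠ 0 → ∀ (E : Type) [Field E] [Algebra K E] (x : Pt n E), FullPt K c x →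
        Fam K E := by
  classical
  obtain ⟨Δ₁, h₁, hn⟩ := exists_nice h
  choose Δ₂ h₂ hg using exists_gd h
  refine ⟨Δ₁ * ∏ r, Δ₂ r, mul_ne_zero h₁ (Finset.prod_ne_zero_iff.mpr fun r _ => h₂ r), ?_⟩
  intro K _ _ c hc E _ _ x hx
  rw [map_mul, map_prod] at hc
  have hc₁ : AllNice K c := hn K c (left_ne_zero_of_mul hc)
  have hc₂ := Finset.prod_ne_zero_iff.mp (right_ne_zero_of_mul hc)
  refine fam_of_facts h hR c x hx (fun r hr => ?_) (fun s hs => ?_) (fun r j hr _ hjr φ h3 h4 => ?_)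
  · exact hg r K c (hc₂ r (Finset.mem_univ r)) E x hx hr
  · obtain ⟨r, hr⟩ := hR
    rcases exists_inv h c hc₁ x hx r hr s hs with h3 | ⟨σ, h3, h4, h5⟩
    · exact Or.inl h3
    · refine Or.inr ⟨σ, h3, fun r hr φ h6 h7 => ?_⟩
      exact inter_le h c hc₁ x hx r s hr (fun hc => by subst hc; omega) φ h6
        (h5 φ (inv_fixed h c hc₁ x hx r s hr hs σ h3 φ h6 h7))
  · exact inter_le h c hc₁ x hx r j hr hjr φ h3 h4

theorem fg_of_fullX {K E : Type} [Field K] [Field E] [Algebra K E] (c : Tx N d → K)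
    (x : Pt N E) (hx : FullX K c x) : (⊤ : IntermediateField K E).FG := by
  classical
  refine ⟨Finset.univ.image fun q : Σ r : Fin k, Fin (N r + 1) => x q.1 q.2, ?_⟩
  rw [← hx.top]
  unfold Bf
  congr 1
  ext y
  simp only [Finset.coe_image, Finset.coe_univ, Set.image_univ, Set.mem_range, Set.mem_ofPred_eq,
    Set.mem_empty_iff_false, not_false_eq_true, true_and]
  constructor
  · rintro ⟨q, rfl⟩
    exact ⟨q.1, q.2, rfl⟩
  · rintro ⟨j, e, rfl⟩
    exact ⟨⟨j, e⟩, rfl⟩

/-- The dimensions of the slices. -/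
def nn (l : ℕ) (N : Fin k → ℕ) : Fin k → ℕ := fun r => min (N r) (l + 1)

theorem tc_nn (h : Tz N d) : Tc (nn l N) d where
  pos := h.pos
  dim r := by
    have h1 := h.one r
    have h2 := h.le r
    unfold nn
    omega
  dbl r hr := by
    have h1 := h.one r
    have h2 := h.le r
    unfold nn at hr
    omega
  cur r hr := by
    have h1 := h.one r
    have h2 := h.two r
    omega

/-- Theorem M+ in tensor coordinates. -/
theorem plus (hk : 2 ≤ k) (h : Tz N d) (hR : ∃ r, l + 1 ≤ N r) :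
    ∃ Δ : MvPolynomial (Tx N d) ℚ, Δ ≠ 0 ∧ ∀ (K : Type) [Field K] [NumberField K]
      (c : Tx N d → K), aeval c Δ ≠ 0 → Full (idl c) (∑ r, N r - l) := by
  classical
  have hc := tc_nn h
  have hR' : ∃ r, nn l N r = l + 1 := by
    obtain ⟨r, hr⟩ := hR
    exact ⟨r, by unfold nn; omega⟩
  have hN : ∀ r, nn l N r ≤ N r := fun r => min_le_left _ _
  have hl : 0 < l := by
    by_contra h0
    have h1 : l = 0 := by omega
    subst h1
    have h2 := h.one ⟨0, by omega⟩
    simp at h2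
  obtain ⟨Δ₁, h₁, hp⟩ := exists_full h (by omega) hc hR' (fun r => Fin.castLEEmb (hN r))
    (exists_prime_of hc hR' (fun K _ _ c hn => exists_dom hc hR' c hn) (exists_nice hc)
      fun r hr => unique hc r hr)
  obtain ⟨Δ₂, h₂, hf⟩ := exists_fam hc hR'
  choose Δ₃ h₃ hs using fun g : Sl (nn l N) N => exists_slc g Δ₂ h₂
  refine ⟨Δ₁ * ∏ g, Δ₃ g, mul_ne_zero h₁ (Finset.prod_ne_zero_iff.mpr fun g _ => h₃ g), ?_⟩
  intro K _ _ c hcc
  rw [map_mul, map_prod] at hcc
  obtain ⟨hdom, hfull⟩ := hp K c (left_ne_zero_of_mul hcc)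
  have hprime : (idl c).IsPrime := hdom.prime
  have hx := hfull hprime
  refine ⟨hdom.prime, hdom.elim, hdom.trdeg, ?_⟩
  intro X s _ hX
  refine PotentiallyDense.of_birational K X _ s _ hX ?_
  set E := FractionRing (MvPolynomial (Vr N) K ⧸ idl c) with hE
  set x : Pt N E := gpt (idl c) with hxdef
  have hfam : ∀ g : Sl (nn l N) N, ∃ (ι : Type) (B : ι → IntermediateField K E),
      (∀ i, Gd (B i)) ∧ ∀ e, (∀ i, e ∈ B i) → e ∈ Kx K g x := by
    intro g
    have hch : CharZero (Kx K g x) :=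
      charZero_of_injective_algebraMap (algebraMap K (Kx K g x)).injective
    have h4 := hs g K c (Finset.prod_ne_zero_iff.mp (right_ne_zero_of_mul hcc) g
      (Finset.mem_univ g)) (Kx K g x) (xi K g x) (ind_slice (by omega) hc.dim g c x hx)
    exact fam_up _ (hf (Kx K g x) (cx K g x c) h4 E (rst g x) (full_slice hc.dim g c x hx))
  choose ι B hB hI using hfam
  refine WE.main K E (fg_of_fullX c x hx) (fun i : Σ g, ι g => B i.1 i.2)
    (fun i => hB i.1 i.2) (fun e he => ?_) (MvPolynomial (Vr N) K ⧸ idl c)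
    (Algebra.algHom K (MvPolynomial (Vr N) K ⧸ idl c) E) (IsFractionRing.injective _ _)
  have h5 := inter_slices hk hl hc.dim hN c x hx e fun g => hI g e fun i => he ⟨g, i⟩
  rw [IntermediateField.mem_bot] at h5
  obtain ⟨a, rfl⟩ := h5
  exact isAlgebraic_algebraMap a

end Pool.Agent.Helper47.P
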