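import Mathlib
import Pool.Agent.Helper47.P.Main
import Pool.Agent.Helper94.P.Lin2
import Pool.Agent.Helper45.MX.TR
import Pool.Agent.Helper92.HK.Closed

/-!
# General complete intersections of `l` ample divisors in products of projective spaces

All factors have dimension at least `l`, and the total degrees are at most `N r + 1` (the
anticanonical divisor is nef) and at most `l + 2`.
-/

set_option autoImplicit false

namespace Pool.Agent.Helper47.P

open MvPolynomial AlgebraicGeometry CategoryTheory Pool.Agent Pool.Agent.Helper15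
open Pool.Agent.Helper47.M

variable {k l : ℕ} {N : Fin k → ℕ} {d : Fin l → Fin k → ℕ}

theorem final (hk : 2 ≤ k) (hN : ∀ r, l ≤ N r) (hd : ∀ i r, 0 < d i r)
    (h1 : ∀ r, ∑ i, d i r ≤ N r + 1) (h2 : ∀ r, ∑ i, d i r ≤ l + 2) :
    ∃ Δ : MvPolynomial (Σ i, Mono N (d i)) ℚ, Δ ≠ 0 ∧ ∀ (K : Type) [Field K] [NumberField K]
      (a : (Σ i, Mono N (d i)) → K), aeval a Δ ≠ 0 → Full (ideal d a) (∑ r, N r - l) := by
  have h0 : ∀ r, l ≤ ∑ i, d i r := by
    intro r
    have h3 : ∑ _i : Fin l, 1 ≤ ∑ i, d i r := Finset.sum_le_sum fun i _ => hd i r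
    simpa using h3
  by_cases hlin : ∃ r, ∑ i, d i r = l
  · obtain ⟨r, hr⟩ := hlin
    refine natural_pred (fun K _ _ I => Full I (∑ r, N r - l)) ?_
    obtain ⟨Δ, hΔ, H⟩ := Helper94.P.linear_case hd hN r hr
    refine ⟨Δ, hΔ, fun K _ _ c hc => ?_⟩
    obtain ⟨h3, h4⟩ := H K c hc
    exact full_of_good h3 h4
  push Not at hlin
  have hz : Tz N d := ⟨hd, fun r => by
    have := h0 r
    have := hlin r
    omega, h2, h1⟩
  by_cases hR : ∃ r, l + 1 ≤ N r
  · exact natural_pred (fun K _ _ I => Full I (∑ r, N r - l)) (plus hk hz hR)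
  · push Not at hR
    have hN' : ∀ r, N r = l := fun r => by
      have := hN r
      have := hR r
      omega
    have hy : Ty N d := ⟨hd, fun r => by
      have h3 := hz.one r
      have h4 := h1 r
      have h5 := hN' r
      omega, fun r => Or.inl (hN' r)⟩
    have hl : 1 ≤ l := by
      by_contra h3
      have h4 : l = 0 := by omega
      subst h4
      have h5 := hz.one ⟨0, by omega⟩
      simp at h5
    obtain ⟨Δ, hΔ, H⟩ := Helper45.MX.tr hy hN' fun hd hs => Helper92.HK.total hl hk d hd hs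
    refine ⟨Δ, hΔ, fun K _ _ a ha => ?_⟩
    obtain ⟨h3, h4⟩ := H K a ha
    exact full_of_good h3 h4

end Pool.Agent.Helper47.P
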