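import Mathlib
import Pool.Agent.Helper47.P.Defs
import Pool.Agent.Helper15.WE23
import Pool.Agent.Helper24.MP.Prim

/-!
# Theorem M+: the pieces (frames with sorry)

Proofs go to files of the owners, `Pool/Agent/Helper<nn>/P/...`, in the namespace of the owner, with
exactly these statements.  Do not import this file.
-/

set_option autoImplicit false

namespace Pool.Agent.Helper47.P.Pieces

open MvPolynomial AlgebraicGeometry CategoryTheory Pool.Agent.Helper15 Pool.Agent.Helper15.Curve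
open Pool.Agent.Helper47.M Pool.Agent.Helper47.P Pool.Agent.Helper24.MP

variable {k l : ℕ} {n N : Fin k → ℕ} {d : Fin l → Fin k → ℕ}

/-! ## Block PT: the pieces of Theorem M for the types `Tc` (copies of the files, `Ty` replaced) -/

section PT

theorem exists_nice (h : Tc N d) :
    ∃ Δ : MvPolynomial (Tx N d) ℚ, Δ ≠ 0 ∧ ∀ (K : Type) [Field K] [CharZero K] (c : Tx N d → K),
      aeval c Δ ≠ 0 → AllNice K c := by sorry

theorem exists_two (h : Tc N d) (j : Fin k) (hj : N j = l) :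
    ∃ i0, d i0 j = 2 ∧ ∀ i, i ≠ i0 → d i j = 1 := by sorry

theorem alg_of_nice {K Ω : Type} [Field K] [CharZero K] [Field Ω] [Algebra K Ω] (h : Tc N d)
    (c : Tx N d → K) (x : Pt N Ω) (hx : ∀ i, Fm (fun e => algebraMap K Ω (c e)) x i = 0)
    (hn : Nice (fun e => algebraMap K Ω (c e)) x) (j : Fin k) (hj : N j = l) (h1 : x j 0 = 1) :
    ∀ i, IsAlgebraic (Bf K x {j}) (x j i) := by sorry

variable {K E : Type} [Field K] [Field E] [Algebra K E]

theorem inv_fixed [CharZero K] (h : Tc N d) (c : Tx N d → K) (hc : AllNice K c) (x : Pt N E)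
    (hx : FullPt K c x) (r s : Fin k) (hr : N r = l + 1) (hs : N s = l) (σ : E ≃ₐ[K] E)
    (hσ : ∀ j, j ≠ s → ∀ i, σ (x j i) = x j i) (φ : E) (h1 : φ ∈ Bf K x {r})
    (h2 : σ φ ∈ Bf K x {r}) : σ φ = φ := by sorry

theorem inter_le [CharZero K] (h : Tc N d) (c : Tx N d → K) (hc : AllNice K c) (x : Pt N E)
    (hx : FullPt K c x) (r j : Fin k) (hr : N r = l + 1) (hj : j ≠ r) (φ : E)
    (h1 : φ ∈ Bf K x {r}) (h2 : φ ∈ Bf K x {j}) : φ ∈ Bf K x {r, j} := by sorry

theorem exists_inv [CharZero K] (h : Tc N d) (c : Tx N d → K) (hc : AllNice K c) (x : Pt N E)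
    (hx : FullPt K c x) (r : Fin k) (hr : N r = l + 1) (s : Fin k) (hs : N s = l) :
    Bf K x {s} = ⊤ ∨ ∃ σ : E ≃ₐ[K] E, (∀ j, j ≠ s → ∀ i, σ (x j i) = x j i) ∧
      (∀ φ, σ (σ φ) = φ) ∧ ∀ φ, σ φ = φ → φ ∈ Bf K x {s} := by sorry

theorem exists_dom [CharZero K] (h : Tc N d) (hR : ∃ r, N r = l + 1) (c : Tx N d → K)
    (hc : AllNice K c) : ∃ P, IsDom (idl c) (∑ r, N r - l) P := by sorry

theorem exists_genus (h : Tc N d) (r : Fin k) (hr : N r = l + 1) (hs : ∑ i, d i r = l + 2) :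
    ∃ Δ : MvPolynomial (Tx N d) ℚ, Δ ≠ 0 ∧ ∀ (K : Type) [Field K] [CharZero K] (c : Tx N d → K),
      aeval c Δ ≠ 0 → ∀ (E : Type) [Field E] [Algebra K E] (x : Pt N E), FullPt K c x →
        IsGenusOne (Bf K x {r}) := by sorry

/-- Both types of curves. -/
theorem unique (h : Tc N d) (r : Fin k) (hr : N r = l + 1) :
    ∃ Δ : MvPolynomial (Tx N d) ℚ, Δ ≠ 0 ∧
      ∀ (K : Type) [Field K] [CharZero K] (c : Tx N d → K), aeval c Δ ≠ 0 → Unq K c r := by sorry

/-- From `unique`, `exists_nice`, `exists_dom`. -/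
theorem exists_prime (h : Tc N d) (hR : ∃ r, N r = l + 1) :
    ∃ Δ : MvPolynomial (Tx N d) ℚ, Δ ≠ 0 ∧ ∀ (K : Type) [Field K] [CharZero K]
      (c : Tx N d → K), aeval c Δ ≠ 0 → IsDom (idl c) (∑ r, N r - l) (idl c) := by sorry

end PT

/-! ## Block PC: conics -/

section PC

/-- The fibre in the factor `r` is a conic: solve the linear forms, `a v ^ 2 + b(u) v + c(u) = 0`,
`y = 2 a v + b`, `q = b ^ 2 - 4 a c` of degree two and separable for general coefficients. -/
theorem exists_conic (h : Tc N d) (r : Fin k) (hr : N r = l + 1) (hs : ∑ i, d i r = l + 1) :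
    ∃ Δ : MvPolynomial (Tx N d) ℚ, Δ ≠ 0 ∧ ∀ (K : Type) [Field K] [CharZero K] (c : Tx N d → K),
      aeval c Δ ≠ 0 → ∀ (E : Type) [Field E] [Algebra K E] (x : Pt N E), FullPt K c x →
        ∃ (u y : E) (q : Polynomial (Bf K x {r})), IsQuartic (Bf K x {r}) u y q := by sorry

/-- Any two generic points of a general conic satisfy the same polynomials. -/
theorem unique_conic (h : Tc N d) (r : Fin k) (hr : N r = l + 1) (hs : ∑ i, d i r = l + 1) :
    ∃ Δ : MvPolynomial (Tx N d) ℚ, Δ ≠ 0 ∧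
      ∀ (K : Type) [Field K] [CharZero K] (c : Tx N d → K), aeval c Δ ≠ 0 → Unq K c r := by sorry

end PC

/-! ## Block PS: slices -/

section PS

variable {S S' : Type*} [CommRing S] [CommRing S']

theorem fm_slc (g : Sl n N) (ξ : Q g → S) (c : Tx N d → S) (y : Pt n S) (i : Fin l) :
    Fm (slc g ξ c) y i = Fm c (emb g ξ y) i := by sorry

theorem slc_map (f : S →+* S') (g : Sl n N) (ξ : Q g → S) (c : Tx N d → S) (e : Tx n d) :
    f (slc g ξ c e) = slc g (fun q => f (ξ q)) (fun e => f (c e)) e := by sorry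

theorem emb_rst (g : Sl n N) (x : Pt N S) (h1 : ∀ r, x r 0 = 1) :
    emb g (fun q => x q.1.1 q.1.2.succ) (rst g x) = x := by sorry

/-- General coefficients have general slices. Proof: at `ξ = 0` the map `slc` is surjective, so
`Δ(slc g X c)` is not zero; take one of its coefficients as a polynomial in `ξ`. -/
theorem exists_slc (g : Sl n N) (Δ : MvPolynomial (Tx n d) ℚ) (hΔ : Δ ≠ 0) :
    ∃ Δ' : MvPolynomial (Tx N d) ℚ, Δ' ≠ 0 ∧ ∀ (K : Type) [Field K] [CharZero K]
      (c : Tx N d → K), aeval c Δ' ≠ 0 → ∀ (K' : Type) [Field K'] [Algebra K K'] [CharZero K']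
      (ξ : Q g → K'), AlgebraicIndependent K ξ →
        aeval (slc g ξ fun e => algebraMap K K' (c e)) Δ ≠ 0 := by sorry

variable {K E : Type} [Field K] [Field E] [Algebra K E]

/-- The fixed coordinates are independent. -/
theorem ind_slice (hk : 0 < k) (hn : ∀ r, n r = l ∨ n r = l + 1) (g : Sl n N) (c : Tx N d → K)
    (x : Pt N E) (hx : FullX K c x) : AlgebraicIndependent K (xi K g x) := by sorry

/-- The generic point of the slice. -/
theorem full_slice (hn : ∀ r, n r = l ∨ n r = l + 1) (g : Sl n N) (c : Tx N d → K) (x : Pt N E)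
    (hx : FullX K c x) : FullPt (Kx K g x) (cx K g x c) (rst g x) := by sorry

/-- The fields of the fixed coordinates of all slices have the intersection `K`. -/
theorem inter_slices (hk : 2 ≤ k) (hl : 0 < l) (hn : ∀ r, n r = l ∨ n r = l + 1)
    (hN : ∀ r, n r ≤ N r) (c : Tx N d → K) (x : Pt N E) (hx : FullX K c x) (e : E)
    (h : ∀ g : Sl n N, e ∈ Kx K g x) : e ∈ (⊥ : IntermediateField K E) := by sorry

end PS

/-! ## Block PP: the ideal of `X` is prime -/

section PP

/-- Generic coefficients: the ideal is prime and the Jacobian determinant is not in it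
(`Helper92.GF.exists_nzd`; `Helper28.M.jac_nzd` is the case `N r = l + 1`). -/
theorem jac_nzd (hd : ∀ i r, 0 < d i r) (r : Fin k) (u : Fin l ↪ Fin (N r)) :
    ∃ Δ : MvPolynomial (Tx N d) ℚ, Δ ≠ 0 ∧ ∀ (K : Type) [Field K] [CharZero K]
      (c : Tx N d → K), aeval c Δ ≠ 0 →
        ∀ (m : ℕ) (G : MvPolynomial (Vr N) K), Jd c r u ^ m * G ∈ idl c → G ∈ idl c := by sorry

/-- Proof: `exists_pow_mem_of_points` (the polynomial `p` does not vanish at the points). -/
theorem nzd_of_jac {K : Type} [Field K] [CharZero K] (c : Tx N d → K) (r : Fin k)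
    (u : Fin l ↪ Fin (N r))
    (hJ : ∀ (m : ℕ) (G : MvPolynomial (Vr N) K), Jd c r u ^ m * G ∈ idl c → G ∈ idl c)
    (p G : MvPolynomial (Vr N) K) (hp : p ≠ 0) (hv : ∀ v ∈ p.vars, ∀ j, v ≠ ⟨r, u j⟩)
    (h : p * G ∈ idl c) : G ∈ idl c := by sorry

/-- The ideal is the contraction of the (prime) ideal of the slice over `K(ξ)`; all `Jd c r u` are
nonzerodivisors, so by `nzd_of_jac` all coordinates outside `(r, u j)` are independent modulo the
ideal (this gives `elim`, `FullX.ind`); algebraicity over them as in `alg_of_nice`. -/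
theorem exists_full (h : Tz N d) (hk : 0 < k) (hc : Tc n d) (hR : ∃ r, n r = l + 1)
    (g : Sl n N)
    (hprime : ∃ Δ : MvPolynomial (Tx n d) ℚ, Δ ≠ 0 ∧ ∀ (K : Type) [Field K] [CharZero K]
      (c : Tx n d → K), aeval c Δ ≠ 0 → IsDom (idl c) (∑ r, n r - l) (idl c)) :
    ∃ Δ : MvPolynomial (Tx N d) ℚ, Δ ≠ 0 ∧ ∀ (K : Type) [Field K] [CharZero K]
      (c : Tx N d → K), aeval c Δ ≠ 0 → IsDom (idl c) (∑ r, N r - l) (idl c) ∧
        ∀ _ : (idl c).IsPrime, FullX K c (gpt (idl c)) := by sorry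

end PP

/-! ## Block PK: assembly (helper47) -/

section PK

theorem fam_of_full {K E : Type} [Field K] [CharZero K] [Field E] [Algebra K E] (h : Tc N d)
    (hR : ∃ r, N r = l + 1) (c : Tx N d → K) (hc : AllNice K c) (x : Pt N E)
    (hx : FullPt K c x) (hg : ∀ r, N r = l + 1 → Gd (Bf K x {r})) : Fam K E := by sorry

theorem fam_up {K E : Type} [Field K] [Field E] [Algebra K E] (K' : IntermediateField K E)
    (h : Fam K' E) : ∃ (ι : Type) (B : ι → IntermediateField K E), (∀ i, Gd (B i)) ∧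
      ∀ e, (∀ i, e ∈ B i) → e ∈ K' := by sorry

end PK

end Pool.Agent.Helper47.P.Pieces
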